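import Pool.Agent.Lib.MP_4d6431_an.Space

/-!
# `ae_p(n) → ∞` as `p → 0`, for every `n ≥ 3`
-/

namespace Pool.Agent.Results.MP_4d6431_an.AbsExtInfinity

open Filter Topology Pool.Agent.Lib.MP_4d6431_an
open scoped ENNReal

/-- Answer to Q1: for every `n ≥ 3` the absolute `p`-extendability constant `ae_p(n)` tends to
infinity as `p → 0`. -/
theorem result (n : ℕ) (hn : 3 ≤ n) :
    Tendsto (fun p => absExtCard p n) (𝓝[>] (0 : ℝ)) (𝓝 ⊤) := by
  rw [ENNReal.tendsto_nhds_top_iff_nat]
  intro k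
  have hfin : Finite (T₀ k) := Set.finite_of_encard_le_coe (T₀_encard k)
  have hne : Nonempty (T₀ k) := (T₀_nonempty k).to_subtype
  have hcard : Nat.card (T₀ k) ≤ n := by
    refine le_trans ?_ hn
    have h := T₀_encard k
    rw [← Set.Finite.cast_ncard_eq (Set.finite_of_encard_le_coe (T₀_encard k))] at h
    have h' : (T₀ k).ncard ≤ 3 := by exact_mod_cast h
    rwa [Nat.card_coe_set_eq]
  have hlt : (k : ℝ≥0∞) < (k : ℝ≥0∞) + 1 := ENNReal.lt_add_right (by simp) one_ne_zero
  filter_upwards [(tendsto_trace_T₀ k).eventually_const_lt hlt] with p hp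
  refine hp.trans_le ?_
  have h1 : trace p (T₀ k) ≤ absExt p (T₀ k) := by
    have h2 : Set.range (Subtype.val : T₀ k → T k) = T₀ k := Subtype.range_val
    calc trace p (T₀ k) = trace p (Set.range (Subtype.val : T₀ k → T k)) := by rw [h2]
      _ ≤ absExt p (T₀ k) :=
        le_iSup_of_le (T k) (le_iSup_of_le _ (le_iSup_of_le _ (le_iSup_of_le
          (isometry_subtype_coe) le_rfl)))
  exact h1.trans (le_iSup_of_le (T₀ k) (le_iSup_of_le _ (le_iSup_of_le hne
    (le_iSup_of_le hfin (le_iSup_of_le hcard le_rfl)))))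

end Pool.Agent.Results.MP_4d6431_an.AbsExtInfinity
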