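import Pool.Agent.Lib.MP_4d6431_an.Space

/-!
# `S(n, m) = m + 1` for all `n ≥ 3`
-/

namespace Pool.Agent.Results.MP_4d6431_an.TraceLimit

open Filter Topology Pool.Agent.Lib.MP_4d6431_an
open scoped ENNReal

/-- Answer to Q2: `S(n, m) = m + 1` for all `n ≥ 3` and all `m`. -/
theorem result (n m : ℕ) (hn : 3 ≤ n) : S n m = m + 1 := by
  apply le_antisymm
  · refine iSup_le fun M => iSup_le fun _ => iSup_le fun N => iSup_le fun hN => iSup_le fun hNn =>
      iSup_le fun hm => ?_
    exact le_of_tendsto (tendsto_trace N) (Eventually.of_forall fun p =>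
      trace_le hN (Set.finite_of_encard_le_coe hNn) hm p)
  · have h3 : (T₀ m).encard ≤ n := (T₀_encard m).trans (by exact_mod_cast hn)
    rw [← (tendsto_trace_T₀ m).limUnder_eq]
    exact le_iSup_of_le (T m) (le_iSup_of_le _ (le_iSup_of_le (T₀ m) (le_iSup_of_le
      (T₀_nonempty m) (le_iSup_of_le h3 (le_iSup_of_le (T₀_compl_encard m) le_rfl)))))

end Pool.Agent.Results.MP_4d6431_an.TraceLimit
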